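import Mathlib
import Pool.Agent.MP_8604ae_co.Final

/-!
# A graph with the Laplacian spectrum of a threshold graph is a threshold graph
-/

namespace Pool.Agent.FacX

open Finset Pool.Agent.MP_8604ae_co

/-- Threshold graphs, by an injective rank function `r` on the vertices: a vertex `v` is adjacent
to all vertices of smaller rank (`b v`) or to none of them (`¬ b v`). -/
def Thr {V : Type*} (G : SimpleGraph V) : Prop :=
  ∃ (r : V → ℕ) (b : V → Prop), Function.Injective r ∧ ∀ u v, r u < r v → (G.Adj u v ↔ b v)

lemma Thr.iso {V W : Type*} {G : SimpleGraph V} {H : SimpleGraph W} (e : G ≃g H) (h : Thr H) :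
    Thr G := by
  obtain ⟨r, b, hr, hb⟩ := h
  refine ⟨fun v => r (e v), fun v => b (e v), fun u v huv => e.injective (hr huv), ?_⟩
  intro u v huv
  change G.Adj u v ↔ b (e v)
  rw [← hb _ _ huv]
  exact e.map_rel_iff.symm

lemma Thr.compl {V : Type*} {G : SimpleGraph V} (h : Thr Gᶜ) : Thr G := by
  obtain ⟨r, b, hr, hb⟩ := h
  refine ⟨r, fun v => ¬ b v, hr, ?_⟩
  intro u v huv
  change G.Adj u v ↔ ¬ b v
  rw [← hb u v huv, SimpleGraph.compl_adj]
  have hne : u ≠ v := by rintro rfl; exact lt_irrefl _ huv
  simp [hne]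

lemma Thr.bot {V : Type*} [Finite V] : Thr (⊥ : SimpleGraph V) := by
  obtain ⟨n, ⟨e⟩⟩ := Finite.exists_equiv_fin V
  exact ⟨fun v => e v, fun _ => False, fun u v h => e.injective (Fin.ext h), fun u v _ => by simp⟩

/-- Adding isolated vertices. -/
lemma Thr.block {V : Type*} [Fintype V] {G : SimpleGraph V} (C : Finset V)
    (hC : ∀ u w, G.Adj u w → u ∈ C) (h : Thr (G.induce (C : Set V))) : Thr G := by
  classical
  obtain ⟨r, b, hr, hb⟩ := h
  obtain ⟨N, hN⟩ : ∃ N : ℕ, ∀ x : (C : Set V), r x < N := by
    refine ⟨∑ x : (C : Set V), r x + 1, fun x => ?_⟩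
    have := Finset.single_le_sum (f := r) (fun i _ => Nat.zero_le _) (Finset.mem_univ x)
    omega
  let e := Fintype.equivFin V
  refine ⟨fun v => if h : v ∈ C then r ⟨v, h⟩ else N + (e v : ℕ),
    fun v => if h : v ∈ C then b ⟨v, h⟩ else False, ?_, ?_⟩
  · intro u v huv
    by_cases hu : u ∈ C <;> by_cases hv : v ∈ C
    · simp only [hu, hv, dif_pos] at huv
      have := hr huv
      simpa using this
    · simp only [hu, hv, dif_pos, dif_neg, not_false_eq_true] at huv
      have := hN ⟨u, hu⟩
      omega
    · simp only [hu, hv, dif_pos, dif_neg, not_false_eq_true] at huv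
      have := hN ⟨v, hv⟩
      omega
    · simp only [hu, hv, dif_neg, not_false_eq_true] at huv
      exact e.injective (Fin.ext (by omega))
  · intro u v huv
    by_cases hu : u ∈ C <;> by_cases hv : v ∈ C
    · simp only [hu, hv, dif_pos] at huv ⊢
      rw [← hb _ _ huv]
      rfl
    · simp only [hv, dif_neg, not_false_eq_true, iff_false]
      intro h
      exact hv (hC v u h.symm)
    · simp only [hu, hv, dif_pos, dif_neg, not_false_eq_true] at huv
      have := hN ⟨v, hv⟩
      omega
    · simp only [hv, dif_neg, not_false_eq_true, iff_false]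
      intro h
      exact hv (hC v u h.symm)

/-- The spectrum zero. -/
lemma eq_bot_of_zero {m : ℕ} {G : SimpleGraph (Fin (m + 1))} (h : IsSp m 0 G) : G = ⊥ := by
  classical
  have hH : (G.lapMatrix ℝ).IsHermitian := G.isHermitian_lapMatrix ℝ
  have h4 : ms G = Finset.univ.val.map hH.eigenvalues := by
    rw [ms_def, hH.roots_charpoly_eq_eigenvalues]
    rfl
  have h5 : hH.eigenvalues = 0 := by
    funext i
    have h6 : hH.eigenvalues i ∈ ms G := by
      rw [h4, Multiset.mem_map]
      exact ⟨i, Finset.mem_univ_val _, rfl⟩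
    rw [h.eq, Multiset.mem_map] at h6
    obtain ⟨j, _, hj⟩ := h6
    rw [← hj]
    rfl
  have h7 : G.lapMatrix ℝ = 0 := hH.eigenvalues_eq_zero_iff.1 h5
  ext i j
  simp only [SimpleGraph.bot_adj, iff_false]
  intro hij
  have h8 := congrFun (congrFun h7 i) j
  rw [lap_apply] at h8
  simp [hij, hij.ne] at h8

/-- A graph with the spectrum of a threshold graph is a threshold graph. -/
lemma thr_of_Ts : ∀ (k m : ℕ) (f : ℕ → ℝ) (G : SimpleGraph (Fin (m + 1))), k ≤ m → f ∈ Ts k →
    IsSp m f G → Thr G := by
  classical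
  intro k
  induction k using Nat.strong_induction_on with
  | _ k ih =>
    intro m f G hkm hf hG
    rcases Ts_cases hf with h0 | ⟨j, g, hj, hg, hfg⟩
    · subst h0
      rw [eq_bot_of_zero hG]
      exact Thr.bot
    · -- structure of `G`
      have hz : ∀ i, j + 1 ≤ i → f i = 0 := by
        intro i hi
        rw [hfg]
        exact dom_big j g i hi
      have hcount : Fintype.card (Fin (m + 1)) ≤ (ms G).count 0 + (j + 1) := by
        rw [hG.eq, Multiset.count_map, Fintype.card_fin]
        have h1 : ((Finset.Ico (j + 1) (m + 1)).val) ≤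
            (Multiset.range (m + 1)).filter (fun a => 0 = f a) := by
          rw [Multiset.le_iff_subset (Finset.nodup _)]
          intro a ha
          have ha' : a ∈ Finset.Ico (j + 1) (m + 1) := ha
          rw [Finset.mem_Ico] at ha'
          rw [Multiset.mem_filter, Multiset.mem_range]
          exact ⟨ha'.2, (hz a ha'.1).symm⟩
        have h2 := Multiset.card_le_card h1
        rw [Finset.card_val, Nat.card_Ico] at h2
        omega
      have hst := structure_lemma G hcount (hG.mem (Nat.zero_le m))
      have hf0 : f 0 = ((j + 1 : ℕ) : ℝ) + 1 := by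
        rw [hfg, dom_zero]
        push_cast
        ring
      obtain ⟨C, hC, hadj⟩ := hst.2 hf0
      apply Thr.block C hadj
      have hb := ms_block G (C : Set (Fin (m + 1))) (fun u w h => hadj u w h)
      let e : (C : Set (Fin (m + 1))) ≃ Fin (j + 1 + 1) :=
        Fintype.equivFinOfCardEq (by simpa using hC)
      let H : SimpleGraph (Fin (j + 1 + 1)) :=
        (G.induce (C : Set (Fin (m + 1)))).map e.toEmbedding
      have he : (G.induce (C : Set (Fin (m + 1)))) ≃g H := SimpleGraph.Iso.map e _
      rw [ms_iso he] at hb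
      have hcc : Fintype.card ((C : Set (Fin (m + 1)))ᶜ : Set (Fin (m + 1))) = m - (j + 1) := by
        rw [Fintype.card_compl_set, Fintype.card_fin]
        have : Fintype.card (C : Set (Fin (m + 1))) = j + 1 + 1 := by simpa using hC
        rw [this]
        omega
      rw [hcc, hG.eq] at hb
      have hsplit : (Multiset.range (m + 1)).map f =
          (Multiset.range (j + 1 + 1)).map f + Multiset.replicate (m - (j + 1)) 0 := by
        obtain ⟨d, rfl⟩ : ∃ d, m = j + 1 + d := ⟨m - (j + 1), by omega⟩
        have e1 : j + 1 + d - (j + 1) = d := by omega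
        rw [e1]
        clear hb hcc he H e hadj hC C hst hcount hG G hkm e1
        induction d with
        | zero => simp
        | succ d ih' =>
          rw [show j + 1 + (d + 1) + 1 = (j + 1 + d + 1) + 1 by ring, Multiset.range_succ,
            Multiset.map_cons, ih', hz (j + 1 + d + 1) (by omega), Multiset.replicate_succ,
            Multiset.add_cons]
      rw [hsplit] at hb
      have hb' := add_right_cancel hb
      have hH : IsSp (j + 1) f H := ⟨hG.anti, hz, hb'.symm⟩
      have hHc := isSp_R hH
      rw [hfg, R_dom] at hHc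
      have hthr : Thr Hᶜ := ih j hj (j + 1) (R j g) Hᶜ (by omega) (R_mem_Ts hg) hHc
      exact (hthr.compl).iso he

/-- From rank functions to the definition. -/
lemma Thr.isThreshold {n : ℕ} {G : SimpleGraph (Fin n)} (h : Thr G) : IsThreshold G := by
  obtain ⟨r, b, hr, hb⟩ := h
  refine ⟨Tuple.sort r, fun i => b (Tuple.sort r i), ?_⟩
  intro i j hij
  apply hb
  have h1 : r (Tuple.sort r i) ≤ r (Tuple.sort r j) := Tuple.monotone_sort r hij.le
  rcases h1.eq_or_lt with h2 | h2
  · exact absurd ((Tuple.sort r).injective (hr h2)) hij.ne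
  · exact h2

/-- A graph whose Laplacian spectrum is the spectrum of a threshold graph is a threshold graph. -/
theorem isThreshold_of_mem {n : ℕ} {G : SimpleGraph (Fin n)} {x : Fin n → ℝ}
    (hG : IsSpectrum G x) (hx : x ∈ thresholdSpectra n) : IsThreshold G := by
  rcases n with _ | m
  · exact ⟨Equiv.refl _, fun _ => False, fun i => i.elim0⟩
  · have h1 := (isSpectrum_iff G x).1 hG
    have h2 : E (m + 1) x ∈ Ts m := by
      rw [← E_image_threshold]
      exact ⟨x, hx, rfl⟩
    exact (thr_of_Ts m m _ G le_rfl h2 h1).isThreshold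

theorem mem_thresholdSpectra_iff {n : ℕ} {G : SimpleGraph (Fin n)} {x : Fin n → ℝ}
    (hG : IsSpectrum G x) : x ∈ thresholdSpectra n ↔ IsThreshold G :=
  ⟨isThreshold_of_mem hG, fun h => ⟨G, h, hG⟩⟩

end Pool.Agent.FacX
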