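import Pool.Agent.FacX.Main
import Pool.Agent.MP_8604ae_co.Defs
import Pool.Agent.MP_8604ae_co.Cograph

/-!
# The inequalities for graphs, and the extreme points of the hull of Laplacian spectra
-/

set_option autoImplicit false

namespace Pool.Agent.FacX

open Matrix Finset Pool.Agent.MP_8604ae_co

theorem facet_graph' {V : Type*} [Fintype V] [DecidableEq V] (G : SimpleGraph V)
    [DecidableRel G.Adj] (hL : (G.lapMatrix ℝ).IsHermitian) (K₁ K₂ : Finset V)
    (h12 : K₁ ⊆ K₂) (hne : ∀ v ∈ K₂, hL.eigenvalues v ≠ 0) :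
    ∑ v ∈ K₁, hL.eigenvalues v + ∑ v ∈ K₂, hL.eigenvalues v ≤
      2 * (G.edgeFinset.card : ℝ) + (K₁.card : ℝ) * (K₂.card + 1) := by
  have hdeg : ∀ i, ∑ j, G.adjMatrix ℝ i j = (G.degree i : ℝ) := by
    intro i
    simp [SimpleGraph.adjMatrix_apply, SimpleGraph.degree, SimpleGraph.neighborFinset_eq_filter]
  have hLap : G.lapMatrix ℝ =
      Matrix.diagonal (fun i => ∑ j, G.adjMatrix ℝ i j) - G.adjMatrix ℝ := by
    rw [SimpleGraph.lapMatrix, SimpleGraph.degMatrix]
    congr 2
    funext i
    rw [hdeg i]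
  have hsum : ∑ i, ∑ j, G.adjMatrix ℝ i j = 2 * (G.edgeFinset.card : ℝ) := by
    rw [Finset.sum_congr rfl fun i _ => hdeg i]
    have := G.sum_degrees_eq_twice_card_edges
    exact_mod_cast this
  have main : ∀ (L : Matrix V V ℝ) (hL : L.IsHermitian),
      L = Matrix.diagonal (fun i => ∑ j, G.adjMatrix ℝ i j) - G.adjMatrix ℝ →
      (∀ v ∈ K₂, hL.eigenvalues v ≠ 0) →
      ∑ v ∈ K₁, hL.eigenvalues v + ∑ v ∈ K₂, hL.eigenvalues v ≤
        ∑ i, ∑ j, G.adjMatrix ℝ i j + (K₁.card : ℝ) * (K₂.card + 1) := by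
    intro L hL h hne
    subst h
    refine facet_matrix _ (fun i j => ?_) (fun i j => ?_) (fun i j => ?_) hL K₁ K₂ h12 hne
    · simp only [SimpleGraph.adjMatrix_apply, G.adj_comm]
    · rw [SimpleGraph.adjMatrix_apply]
      split_ifs <;> norm_num
    · rw [SimpleGraph.adjMatrix_apply]
      split_ifs <;> norm_num
  have h := main _ hL hLap hne
  rw [hsum] at h
  exact h

/-- The sums of the eigenvalues over two nested sets. -/
theorem facet_graph {V : Type*} [Fintype V] [DecidableEq V] (G : SimpleGraph V)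
    [DecidableRel G.Adj] (hL : (G.lapMatrix ℝ).IsHermitian) (K₁ K₂ : Finset V)
    (h12 : K₁ ⊆ K₂) :
    ∑ v ∈ K₁, hL.eigenvalues v + ∑ v ∈ K₂, hL.eigenvalues v ≤
      2 * (G.edgeFinset.card : ℝ) + (K₁.card : ℝ) * (K₂.card + 1) := by
  classical
  have h := facet_graph' G hL (K₁.filter fun v => hL.eigenvalues v ≠ 0)
    (K₂.filter fun v => hL.eigenvalues v ≠ 0) (Finset.filter_subset_filter _ h12)
    (fun v hv => (Finset.mem_filter.1 hv).2)
  rw [Finset.sum_filter_ne_zero, Finset.sum_filter_ne_zero] at h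
  have h1 : ((K₁.filter fun v => hL.eigenvalues v ≠ 0).card : ℝ) ≤ K₁.card := by
    exact_mod_cast Finset.card_filter_le _ _
  have h2 : ((K₂.filter fun v => hL.eigenvalues v ≠ 0).card : ℝ) ≤ K₂.card := by
    exact_mod_cast Finset.card_filter_le _ _
  refine h.trans (add_le_add le_rfl (mul_le_mul h1 (by linarith) (by positivity) (by positivity)))

/-- two families with the same multiset of values differ by a permutation -/
theorem exists_perm {α β : Type*} [Fintype α] [DecidableEq β] {f g : α → β}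
    (h : (Finset.univ : Finset α).val.map f = (Finset.univ : Finset α).val.map g) :
    ∃ e : α ≃ α, ∀ a, g (e a) = f a := by
  have hc : ∀ c, Nonempty ({a // f a = c} ≃ {a // g a = c}) := by
    intro c
    have h1 := congrArg (Multiset.count c) h
    rw [Multiset.count_map, Multiset.count_map] at h1
    refine ⟨Fintype.equivOfCardEq ?_⟩
    rw [Fintype.card_subtype, Fintype.card_subtype]
    have h2 : ∀ u : α → β, (Finset.univ.filter (fun a => u a = c)).card =
        Multiset.card ((Finset.univ : Finset α).val.filter (fun a => c = u a)) := by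
      intro u
      rw [Finset.card_def, Finset.filter_val]
      congr 1
      refine Multiset.filter_congr fun a _ => ?_
      exact eq_comm
    rw [h2, h2, h1]
  refine ⟨Equiv.ofFiberEquiv fun c => (hc c).some, fun a => ?_⟩
  exact Equiv.ofFiberEquiv_map _ a

theorem lap_hermitian {V : Type*} [Fintype V] [DecidableEq V] (G : SimpleGraph V)
    [DecidableRel G.Adj] : (G.lapMatrix ℝ).IsHermitian := by
  rw [Matrix.IsHermitian, Matrix.conjTranspose_eq_transpose_of_trivial]
  exact G.isSymm_lapMatrix (R := ℝ)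

open scoped Classical in
/-- a spectrum in the sense of `IsSpectrum` is a permutation of the eigenvalues -/
theorem spectrum_perm {n : ℕ} (G : SimpleGraph (Fin n)) (x : Fin n → ℝ)
    (hx : IsSpectrum G x) :
    ∃ e : Fin n ≃ Fin n, ∀ i, (lap_hermitian G).eigenvalues (e i) = x i := by
  have h3 : (G.lapMatrix ℝ).charpoly = ∏ i, (Polynomial.X - Polynomial.C (x i)) := hx.2
  have h1 : (G.lapMatrix ℝ).charpoly.roots = (Finset.univ : Finset (Fin n)).val.map x := by
    have h4 : Multiset.map (fun i => Polynomial.X - Polynomial.C (x i)) Finset.univ.val =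
        ((Finset.univ : Finset (Fin n)).val.map x).map
          (fun a : ℝ => Polynomial.X - Polynomial.C a) := by
      rw [Multiset.map_map]
      rfl
    rw [h3, Finset.prod_eq_multiset_prod, h4, Polynomial.roots_multiset_prod_X_sub_C]
  have h2 := (lap_hermitian G).roots_charpoly_eq_eigenvalues
  rw [h1] at h2
  exact exists_perm h2

open scoped Classical in
/-- the sum of all eigenvalues is twice the number of edges -/
theorem topSum_all {n : ℕ} (G : SimpleGraph (Fin n)) (x : Fin n → ℝ) (hx : IsSpectrum G x) :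
    topSum x n = 2 * (G.edgeFinset.card : ℝ) := by
  obtain ⟨e, he⟩ := spectrum_perm G x hx
  have h1 : topSum x n = ∑ i, (lap_hermitian G).eigenvalues i := by
    unfold topSum
    rw [Finset.filter_true_of_mem (fun i _ => i.2),
      ← e.sum_comp (fun i => (lap_hermitian G).eigenvalues i)]
    exact Finset.sum_congr rfl fun i _ => (he i).symm
  have h2 := (lap_hermitian G).trace_eq_sum_eigenvalues
  have h3 : (G.lapMatrix ℝ).trace = ∑ i, (G.degree i : ℝ) := by
    rw [Matrix.trace]
    refine Finset.sum_congr rfl fun i _ => ?_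
    simp [SimpleGraph.lapMatrix, SimpleGraph.degMatrix]
  have h4 : (∑ i, (G.degree i : ℝ)) = 2 * (G.edgeFinset.card : ℝ) := by
    exact_mod_cast G.sum_degrees_eq_twice_card_edges
  rw [h1, ← h4, ← h3, h2]
  simp

open scoped Classical in
/-- All the facet inequalities. -/
theorem facets (n : ℕ) (G : SimpleGraph (Fin n)) (x : Fin n → ℝ) (hx : IsSpectrum G x)
    (p q : ℕ) (hpq : p ≤ q) (hq : q ≤ n) :
    topSum x p + topSum x q ≤ topSum x n + p * (q + 1) := by
  obtain ⟨e, he⟩ := spectrum_perm G x hx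
  have hT : ∀ k, topSum x k = ∑ v ∈ (Finset.univ.filter
      (fun i : Fin n => (i : ℕ) < k)).map e.toEmbedding, (lap_hermitian G).eigenvalues v := by
    intro k
    rw [Finset.sum_map]
    unfold topSum
    exact Finset.sum_congr rfl fun i _ => (he i).symm
  have hcard : ∀ k, k ≤ n → ((Finset.univ.filter
      (fun i : Fin n => (i : ℕ) < k)).map e.toEmbedding).card = k := by
    intro k hk
    rw [Finset.card_map, Fin.card_filter_val_lt, Nat.min_eq_right hk]
  have hsub : (Finset.univ.filter (fun i : Fin n => (i : ℕ) < p)).map e.toEmbedding ⊆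
      (Finset.univ.filter (fun i : Fin n => (i : ℕ) < q)).map e.toEmbedding := by
    refine Finset.map_subset_map.2 fun i hi => ?_
    rw [Finset.mem_filter] at hi ⊢
    exact ⟨hi.1, lt_of_lt_of_le hi.2 hpq⟩
  have h := facet_graph G (lap_hermitian G) _ _ hsub
  rw [← hT, ← hT, hcard p (hpq.trans hq), hcard q hq, ← topSum_all G x hx] at h
  exact h

/-- The extreme points of `P n` are exactly the threshold spectra. -/
theorem extremePoints_eq (n : ℕ) (hn : 1 ≤ n) :
    (P n).extremePoints ℝ = thresholdSpectra n := by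
  have hinj := fun m => (E_injective (m + 1)).image_injective
  have hiff : ∀ m : ℕ, ((P (m + 1)).extremePoints ℝ = thresholdSpectra (m + 1) ↔
      (Pm m).extremePoints ℝ = Ts m) := by
    intro m
    rw [← E_image_extreme, ← E_image_threshold]
    exact (hinj m).eq_iff.symm
  obtain ⟨m, rfl⟩ : ∃ m, n = m + 1 := ⟨n - 1, by omega⟩
  rw [hiff, extreme_eq_iff]
  rintro f ⟨G, hG⟩
  have hE : E (m + 1) (fun i : Fin (m + 1) => f i) = f :=
    E_res (fun i hi => hG.zero i (by omega))
  have h1 : IsSpectrum G (fun i : Fin (m + 1) => f i) := by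
    rw [isSpectrum_iff, hE]
    exact hG
  have h2 : Ineq (fun i : Fin (m + 1) => f i) := fun p q _ hpq hq =>
    facets (m + 1) G _ h1 p q hpq hq.le
  rw [ineq_iff (by simpa using hG.zero m le_rfl), hE] at h2
  exact Qs_of_ineq hG h2

/-- `P n` is cut out by the facet inequalities. -/
theorem P_eq (n : ℕ) (hn : 1 ≤ n) :
    P n = {x : Fin n → ℝ | Antitone x ∧ (∀ i : Fin n, (i : ℕ) + 1 = n → x i = 0) ∧ Ineq x} := by
  have hinj := fun m => (E_injective (m + 1)).image_injective
  obtain ⟨m, rfl⟩ : ∃ m, n = m + 1 := ⟨n - 1, by omega⟩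
  have hhull : convexHull ℝ (thresholdSpectra (m + 1)) = Q (m + 1) := by
    apply hinj m
    rw [LinearMap.image_convexHull, E_image_threshold, E_image_Q, QS_eq_convexHull]
  have hQ : Q (m + 1) = {x : Fin (m + 1) → ℝ | Antitone x ∧
      (∀ i : Fin (m + 1), (i : ℕ) + 1 = m + 1 → x i = 0) ∧ Ineq x} := rfl
  rw [← hQ]
  apply Set.Subset.antisymm
  · refine convexHull_min ?_ (hhull ▸ convex_convexHull ℝ _)
    rintro x ⟨G, hG⟩
    have h1 := (isSpectrum_iff G x).1 hG
    refine ⟨hG.1, fun i hi => ?_, fun p q _ hpq hq => facets (m + 1) G x hG p q hpq hq.le⟩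
    rw [← E_apply_fin x i]
    exact h1.zero _ (by omega)
  · rw [← hhull]
    refine convexHull_mono ?_
    rintro x ⟨G, -, hG⟩
    exact ⟨G, hG⟩

end Pool.Agent.FacX
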