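import Pool.Agent.FacX.Proj

/-!
# The inequality `S_p + S_q ≤ 2 m + p (q + 1)`
-/

set_option autoImplicit false

namespace Pool.Agent.FacX

open Matrix Finset

variable {V : Type*} [Fintype V] [DecidableEq V]

theorem sum_prod (A B : Matrix V V ℝ) (hA : ∀ j, ∑ i, A i j = 0) (hB : ∀ j, ∑ i, B i j = 0) :
    ∑ i, ∑ j, (A i i - A i j) * (B j j - B j i) = A.trace * B.trace + (A * B).trace := by
  have e1 : ∀ i j, (A i i - A i j) * (B j j - B j i) =
      A i i * B j j - A i i * B j i - A i j * B j j + A i j * B j i := fun i j => by ring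
  have h1 : ∑ i, ∑ j, A i i * B j j = A.trace * B.trace := by
    rw [Matrix.trace, Matrix.trace, Finset.sum_mul_sum]
    rfl
  have h2 : ∑ i, ∑ j, A i i * B j i = 0 := by
    refine Finset.sum_eq_zero fun i _ => ?_
    rw [← Finset.mul_sum, hB, mul_zero]
  have h3 : ∑ i, ∑ j, A i j * B j j = 0 := by
    rw [Finset.sum_comm]
    refine Finset.sum_eq_zero fun j _ => ?_
    rw [← Finset.sum_mul, hA, zero_mul]
  have h4 : ∑ i, ∑ j, A i j * B j i = (A * B).trace := by
    rw [Matrix.trace]
    refine Finset.sum_congr rfl fun i _ => ?_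
    rw [Matrix.diag_apply, Matrix.mul_apply]
  rw [Finset.sum_congr rfl fun i _ => Finset.sum_congr rfl fun j _ => e1 i j]
  simp only [Finset.sum_add_distrib, Finset.sum_sub_distrib]
  rw [h1, h2, h3, h4]
  ring

theorem main_ineq (w A B : Matrix V V ℝ) (hs : ∀ i j, w i j = w j i) (h0 : ∀ i j, 0 ≤ w i j)
    (h1 : ∀ i j, w i j ≤ 1) (hA : ∀ j, ∑ i, A i j = 0) (hB : ∀ j, ∑ i, B i j = 0)
    (hA' : ∀ i j, 0 ≤ A i i - A i j ∧ A i i - A i j ≤ 1)
    (hB' : ∀ i j, 0 ≤ B i i - B i j ∧ B i i - B i j ≤ 1) :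
    ∑ i, ∑ j, w i j * (A i i - A i j) + ∑ i, ∑ j, w i j * (B i i - B i j) ≤
      ∑ i, ∑ j, w i j + A.trace * B.trace + (A * B).trace := by
  have h2 : 0 ≤ ∑ i, ∑ j, (w i j * ((1 - (A i i - A i j)) * (1 - (B j j - B j i))) +
      (1 - w i j) * ((A i i - A i j) * (B j j - B j i))) := by
    refine Finset.sum_nonneg fun i _ => Finset.sum_nonneg fun j _ => add_nonneg ?_ ?_
    · exact mul_nonneg (h0 i j) (mul_nonneg (by linarith [(hA' i j).2]) (by linarith [(hB' j i).2]))
    · exact mul_nonneg (by linarith [h1 i j]) (mul_nonneg (hA' i j).1 (hB' j i).1)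
  have h3 : ∀ i j, w i j * ((1 - (A i i - A i j)) * (1 - (B j j - B j i))) +
      (1 - w i j) * ((A i i - A i j) * (B j j - B j i)) =
      w i j - w i j * (A i i - A i j) - w i j * (B j j - B j i) +
        (A i i - A i j) * (B j j - B j i) := fun i j => by ring
  rw [Finset.sum_congr rfl fun i _ => Finset.sum_congr rfl fun j _ => h3 i j] at h2
  simp only [Finset.sum_add_distrib, Finset.sum_sub_distrib] at h2
  rw [sum_prod A B hA hB] at h2
  have h4 : ∑ i, ∑ j, w i j * (B j j - B j i) = ∑ i, ∑ j, w i j * (B i i - B i j) := by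
    rw [Finset.sum_comm]
    exact Finset.sum_congr rfl fun i _ => Finset.sum_congr rfl fun j _ => by rw [hs]
  rw [h4] at h2
  linarith

/-- The inequality for a symmetric matrix with entries in `[0, 1]`, for two nested sets of nonzero
eigenvalues. -/
theorem facet_matrix (w : Matrix V V ℝ) (hs : ∀ i j, w i j = w j i) (h0 : ∀ i j, 0 ≤ w i j)
    (h1 : ∀ i j, w i j ≤ 1)
    (hL : (Matrix.diagonal (fun i => ∑ j, w i j) - w).IsHermitian) (K₁ K₂ : Finset V)
    (h12 : K₁ ⊆ K₂) (hne : ∀ v ∈ K₂, hL.eigenvalues v ≠ 0) :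
    ∑ v ∈ K₁, hL.eigenvalues v + ∑ v ∈ K₂, hL.eigenvalues v ≤
      ∑ i, ∑ j, w i j + (K₁.card : ℝ) * (K₂.card + 1) := by
  set L := Matrix.diagonal (fun i => ∑ j, w i j) - w with hLdef
  set x : V → V → ℝ := fun v => ⇑(hL.eigenvectorBasis v) with hx
  have horth : ∀ u v, ∑ z, x u z * x v z = if u = v then 1 else 0 := by
    intro u v
    have h := orthonormal_iff_ite.mp hL.eigenvectorBasis.orthonormal v u
    have h2 : inner ℝ (hL.eigenvectorBasis v) (hL.eigenvectorBasis u) = ∑ z, x u z * x v z := by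
      rw [EuclideanSpace.inner_eq_star_dotProduct]
      simp [dotProduct, hx]
    rw [← h2, h]
    by_cases huv : u = v
    · rw [if_pos huv, if_pos huv.symm]
    · rw [if_neg huv, if_neg (Ne.symm huv)]
  have heig : ∀ v, L *ᵥ x v = hL.eigenvalues v • x v := fun v => hL.mulVec_eigenvectorBasis v
  have hLs : ∀ i j, L i j = L j i := by
    intro i j
    have := congrFun (congrFun hL j) i
    simpa [Matrix.conjTranspose_apply] using this
  have hL1 : ∀ j, ∑ i, L i j = 0 := by
    intro j
    have e1 : ∀ i, L j i = (if j = i then ∑ l, w j l else 0) - w j i := by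
      intro i
      rw [hLdef, Matrix.sub_apply, Matrix.diagonal_apply]
    rw [Finset.sum_congr rfl fun i _ => (hLs i j).trans (e1 i), Finset.sum_sub_distrib,
      Finset.sum_ite_eq, if_pos (Finset.mem_univ _), sub_self]
  -- eigenvectors have sum zero
  have hsum : ∀ v ∈ K₂, ∑ z, x v z = 0 := by
    intro v hv
    have e1 : ∑ i, (L *ᵥ x v) i = 0 := by
      simp only [Matrix.mulVec, dotProduct]
      rw [Finset.sum_comm]
      refine Finset.sum_eq_zero fun j _ => ?_
      rw [← Finset.sum_mul, hL1, zero_mul]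
    rw [heig v] at e1
    simp only [Pi.smul_apply, smul_eq_mul, ← Finset.mul_sum] at e1
    exact (mul_eq_zero.1 e1).resolve_left (hne v hv)
  -- projections
  have key : ∀ K : Finset V, K ⊆ K₂ → ∃ A : Matrix V V ℝ, (∀ j, ∑ i, A i j = 0) ∧
      (∀ i j, 0 ≤ A i i - A i j ∧ A i i - A i j ≤ 1) ∧ A.trace = K.card ∧
      (A * L).trace = ∑ v ∈ K, hL.eigenvalues v ∧
      (∀ v ∈ K, x v ᵥ* A = x v) ∧
      ∃ B : Matrix V K ℝ, ∀ i j, A i j = ∑ a : K, B i a * x a j := by
    intro K hK
    set X : Matrix K V ℝ := Matrix.of fun a j => x a j with hXdef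
    have hXne : ∀ c : K → ℝ, (∀ i j, ∑ a, c a * (X a i - X a j) = 0) → c = 0 := by
      intro c hc
      have e1 : ∀ i j, ∑ a, c a * X a i = ∑ a, c a * X a j := by
        intro i j
        have := hc i j
        simp only [mul_sub, Finset.sum_sub_distrib] at this
        linarith
      have e2 : ∑ i, ∑ a, c a * X a i = 0 := by
        rw [Finset.sum_comm]
        refine Finset.sum_eq_zero fun a _ => ?_
        rw [← Finset.mul_sum]
        have : ∑ i, X a i = 0 := hsum a (hK a.2)
        rw [this, mul_zero]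
      have e3 : ∀ j, ∑ a, c a * X a j = 0 := by
        intro j
        have e4 : ∑ i : V, ∑ a, c a * X a i = Fintype.card V * ∑ a, c a * X a j := by
          rw [Finset.sum_congr rfl fun i _ => e1 i j, Finset.sum_const, Finset.card_univ,
            nsmul_eq_mul]
        rw [e2] at e4
        have : (Fintype.card V : ℝ) ≠ 0 := by
          have : Nonempty V := ⟨j⟩
          exact_mod_cast Fintype.card_ne_zero
        exact (mul_eq_zero.1 e4.symm).resolve_left this
      funext b
      have e5 : ∑ j, (∑ a, c a * X a j) * X b j = c b := by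
        simp only [Finset.sum_mul]
        rw [Finset.sum_comm]
        have e6 : ∀ a : K, ∑ j, c a * X a j * X b j = if a = b then c a else 0 := by
          intro a
          have e7 : ∑ j, c a * X a j * X b j = c a * ∑ j, x a j * x b j := by
            rw [Finset.mul_sum]
            exact Finset.sum_congr rfl fun j _ => by rw [mul_assoc]; rfl
          rw [e7, horth]
          by_cases hab : a = b
          · rw [if_pos hab, if_pos (congrArg _ hab), mul_one]
          · rw [if_neg hab, if_neg (fun h => hab (Subtype.ext h)), mul_zero]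
        rw [Finset.sum_congr rfl fun a _ => e6 a, Finset.sum_ite_eq', if_pos (Finset.mem_univ _)]
      rw [← e5, Pi.zero_apply]
      refine Finset.sum_eq_zero fun j _ => ?_
      rw [e3 j, zero_mul]
    obtain ⟨B, hB1, hB2, hB3⟩ := exists_proj X hXne
    have hXL : X * L = Matrix.diagonal (fun a : K => hL.eigenvalues a) * X := by
      ext a j
      rw [Matrix.diagonal_mul, Matrix.mul_apply]
      have := congrFun (heig a) j
      rw [Pi.smul_apply, smul_eq_mul, Matrix.mulVec, dotProduct] at this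
      rw [show X a j = x a j from rfl, ← this]
      exact Finset.sum_congr rfl fun z _ => by rw [mul_comm, hLs z j]; rfl
    refine ⟨B * X, ?_, hB3, ?_, ?_, ?_, B, fun i j => rfl⟩
    · intro j
      simp only [Matrix.mul_apply]
      rw [Finset.sum_comm]
      refine Finset.sum_eq_zero fun a _ => ?_
      rw [← Finset.sum_mul, hB2, zero_mul]
    · rw [Matrix.trace_mul_comm, hB1, Matrix.trace_one, Fintype.card_coe]
    · rw [Matrix.mul_assoc, hXL, Matrix.trace_mul_comm, Matrix.mul_assoc, hB1, Matrix.mul_one,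
        Matrix.trace_diagonal]
      exact Finset.sum_coe_sort K (fun v => hL.eigenvalues v)
    · intro v hv
      have e1 : (X * (B * X)) ⟨v, hv⟩ = X ⟨v, hv⟩ := by
        rw [← Matrix.mul_assoc, hB1, Matrix.one_mul]
      rw [← show X ⟨v, hv⟩ = x v from rfl]
      nth_rewrite 2 [← e1]
      rfl
  obtain ⟨A, hA1, hA2, hA3, hA4, -, BA, hA6⟩ := key K₁ h12
  obtain ⟨B, hB1, hB2, hB3, hB4, hB5, -⟩ := key K₂ (Finset.Subset.refl _)
  have hAB : A * B = A := by
    ext i j
    rw [Matrix.mul_apply, hA6 i j]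
    have e1 : ∀ z, A i z * B z j = ∑ a : K₁, BA i a * (x a z * B z j) := by
      intro z
      rw [hA6 i z, Finset.sum_mul]
      exact Finset.sum_congr rfl fun a _ => by rw [mul_assoc]
    rw [Finset.sum_congr rfl fun z _ => e1 z, Finset.sum_comm]
    refine Finset.sum_congr rfl fun a _ => ?_
    rw [← Finset.mul_sum]
    congr 1
    exact congrFun (hB5 a (h12 a.2)) j
  have htr : ∀ C : Matrix V V ℝ, (C * L).trace = ∑ i, ∑ j, w i j * (C i i - C i j) := by
    intro C
    rw [Matrix.trace]
    refine Finset.sum_congr rfl fun i _ => ?_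
    rw [Matrix.diag_apply, Matrix.mul_apply]
    have e1 : ∀ z, C i z * L z i = (if z = i then C i i * ∑ j, w i j else 0) - w i z * C i z := by
      intro z
      rw [hLdef, Matrix.sub_apply, Matrix.diagonal_apply, mul_sub, hs z i]
      by_cases hz : z = i
      · subst hz
        rw [if_pos rfl, if_pos rfl]; ring
      · rw [if_neg hz, if_neg hz]; ring
    rw [Finset.sum_congr rfl fun z _ => e1 z, Finset.sum_sub_distrib, Finset.sum_ite_eq',
      if_pos (Finset.mem_univ _), Finset.mul_sum, ← Finset.sum_sub_distrib]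
    exact Finset.sum_congr rfl fun j _ => by ring
  have hfin := main_ineq w A B hs h0 h1 hA1 hB1 hA2 hB2
  rw [← htr A, ← htr B, hA4, hB4, hAB, hA3, hB3] at hfin
  linarith

end Pool.Agent.FacX
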