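import Mathlib

/-!
# Oblique projections with `0 ≤ A i i - A i j ≤ 1`

For every subspace `X` of the space of vectors with sum zero there is a projection `A` with kernel
`Xᗮ`, range in the vectors with sum zero and `0 ≤ A i i - A i j ≤ 1` for all `i`, `j`: the range of
`A` is spanned by the differences `e i - e j` over a family of pairs with maximal determinant.
-/

set_option autoImplicit false

namespace Pool.Agent.FacX

open Matrix Finset

variable {V : Type*} [Fintype V] [DecidableEq V] {κ : Type*} [Fintype κ] [DecidableEq κ]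

/-- the matrix with columns `e i - e j`, `(i, j) = W k` -/
def inc (W : κ → V × V) : Matrix V κ ℝ :=
  Matrix.of fun i k => (if i = (W k).1 then 1 else 0) - (if i = (W k).2 then 1 else 0)

theorem mul_inc (X : Matrix κ V ℝ) (W : κ → V × V) :
    X * inc W = Matrix.of fun a k => X a (W k).1 - X a (W k).2 := by
  ext a k
  simp [inc, Matrix.mul_apply, mul_sub, Finset.sum_sub_distrib]

theorem sum_inc (W : κ → V × V) (k : κ) : ∑ i, inc W i k = 0 := by
  simp [inc, Finset.sum_sub_distrib]

/-- some family of pairs has a nonzero determinant -/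
theorem exists_ne (X : Matrix κ V ℝ)
    (hX : ∀ c : κ → ℝ, (∀ i j, ∑ a, c a * (X a i - X a j) = 0) → c = 0) :
    ∃ W : κ → V × V, (X * inc W).det ≠ 0 := by
  classical
  set g : V × V → (κ → ℝ) := fun e a => X a e.1 - X a e.2 with hg
  have hspan : Submodule.span ℝ (Set.range g) = ⊤ := by
    by_contra hne
    obtain ⟨φ, hφ0, hφ⟩ := Submodule.exists_le_ker_of_lt_top _ (lt_top_iff_ne_top.2 hne)
    have hc : (fun a => φ (Pi.single a 1)) = 0 := by
      refine hX _ fun i j => ?_
      have h1 : φ (g (i, j)) = 0 := hφ (Submodule.subset_span ⟨(i, j), rfl⟩)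
      rw [← h1]
      conv_rhs => rw [pi_eq_sum_univ' (g (i, j))]
      rw [map_sum]
      refine Finset.sum_congr rfl fun a _ => ?_
      rw [map_smul, smul_eq_mul, mul_comm]
    apply hφ0
    ext a
    simpa using congrFun hc a
  obtain ⟨f, hf1, -, hf3⟩ := Submodule.exists_fun_fin_finrank_span_eq ℝ (Set.range g)
  have hcard : Module.finrank ℝ (Submodule.span ℝ (Set.range g)) = Fintype.card κ := by
    rw [hspan, finrank_top, Module.finrank_fintype_fun_eq_card]
  let e : κ ≃ Fin (Module.finrank ℝ (Submodule.span ℝ (Set.range g))) :=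
    Fintype.equivOfCardEq (by rw [Fintype.card_fin, hcard])
  choose W hW using hf1
  refine ⟨fun k => W (e k), ?_⟩
  have hli : LinearIndependent ℝ (fun k => f (e k)) := hf3.comp e e.injective
  have hcol : (X * inc (fun k => W (e k))).col = fun k => f (e k) := by
    funext k a
    rw [mul_inc, ← hW (e k)]
    rfl
  have h2 : LinearIndependent ℝ (X * inc (fun k => W (e k))).col := by
    rw [hcol]; exact hli
  have h3 := Matrix.linearIndependent_cols_iff_isUnit.1 h2
  exact ((Matrix.isUnit_iff_isUnit_det _).1 h3).ne_zero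

/-- Replacing the vertex `i` by `l` in a pair. -/
def sub (i l : V) (e : V × V) : V × V := (if e.1 = i then l else e.1, if e.2 = i then l else e.2)

theorem col_sub (X : Matrix κ V ℝ) (W : κ → V × V) (i l : V) (a k : κ) :
    X a (sub i l (W k)).1 - X a (sub i l (W k)).2 =
      (X a (W k).1 - X a (W k).2) - inc W i k * (X a i - X a l) := by
  unfold sub inc
  simp only [Matrix.of_apply]
  by_cases h1 : (W k).1 = i <;> by_cases h2 : (W k).2 = i <;>
    simp [h1, h2, Ne.symm]

/-- the determinant of a matrix plus a matrix of rank at most two -/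
theorem det_update2 (M : Matrix κ κ ℝ) (hM : IsUnit M.det) (a b r s : κ → ℝ) :
    (M + Matrix.of fun i j => a i * r j + b i * s j).det =
      M.det * ((1 + r ⬝ᵥ (M⁻¹ *ᵥ a)) * (1 + s ⬝ᵥ (M⁻¹ *ᵥ b)) -
        (r ⬝ᵥ (M⁻¹ *ᵥ b)) * (s ⬝ᵥ (M⁻¹ *ᵥ a))) := by
  set U : Matrix κ (Fin 2) ℝ := Matrix.of fun i x => ![a i, b i] x with hU
  set R : Matrix (Fin 2) κ ℝ := Matrix.of fun x j => ![r j, s j] x with hR
  have h1 : (Matrix.of fun i j => a i * r j + b i * s j) = U * R := by
    ext i j
    simp [hU, hR, Matrix.mul_apply, Fin.sum_univ_two]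
  have e : ∀ x y, (R * M⁻¹ * U) x y = (fun j => R x j) ⬝ᵥ (M⁻¹ *ᵥ (fun k => U k y)) := by
    intro x y
    rw [Matrix.mul_assoc]
    rfl
  rw [h1, Matrix.det_add_mul U R hM, Matrix.det_fin_two]
  simp only [Matrix.add_apply, e, Matrix.one_apply_eq]
  rw [Matrix.one_apply_ne (by decide : (0 : Fin 2) ≠ 1),
    Matrix.one_apply_ne (by decide : (1 : Fin 2) ≠ 0)]
  simp [hU, hR]

theorem exists_proj (X : Matrix κ V ℝ)
    (hX : ∀ c : κ → ℝ, (∀ i j, ∑ a, c a * (X a i - X a j) = 0) → c = 0) :
    ∃ B : Matrix V κ ℝ, X * B = 1 ∧ (∀ k, ∑ i, B i k = 0) ∧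
      ∀ i j, 0 ≤ (B * X) i i - (B * X) i j ∧ (B * X) i i - (B * X) i j ≤ 1 := by
  obtain ⟨W0, hW0⟩ := exists_ne X hX
  have : Nonempty (κ → V × V) := ⟨W0⟩
  obtain ⟨W, hW⟩ := Finite.exists_max (fun W : κ → V × V => |(X * inc W).det|)
  have hM : (X * inc W).det ≠ 0 := by
    intro h
    have h1 := hW W0
    simp only [h, abs_zero] at h1
    exact hW0 (abs_nonpos_iff.1 h1)
  set M := X * inc W with hMdef
  have hMu : IsUnit M.det := isUnit_iff_ne_zero.2 hM
  refine ⟨inc W * M⁻¹, ?_, ?_, ?_⟩
  · rw [← Matrix.mul_assoc]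
    exact Matrix.mul_nonsing_inv M hMu
  · intro k
    simp only [Matrix.mul_apply]
    rw [Finset.sum_comm]
    refine Finset.sum_eq_zero fun l _ => ?_
    rw [← Finset.sum_mul, sum_inc, zero_mul]
  · intro i j
    set u : κ → ℝ := fun a => X a i - X a j with hu
    set β : κ → ℝ := fun k => inc W i k with hβ
    set t : ℝ := β ⬝ᵥ (M⁻¹ *ᵥ u) with ht
    have ht' : (inc W * M⁻¹ * X) i i - (inc W * M⁻¹ * X) i j = t := by
      rw [Matrix.mul_assoc]
      have e : ∀ z, (inc W * (M⁻¹ * X)) i z = β ⬝ᵥ (M⁻¹ *ᵥ (fun a => X a z)) := fun z => rfl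
      rw [e, e, ← dotProduct_sub, ← Matrix.mulVec_sub]
      rfl
    rw [ht']
    have hmax : ∀ W' : κ → V × V, |(X * inc W').det| ≤ |M.det| := hW
    have hpos : 0 < |M.det| := abs_pos.2 hM
    -- first family
    have h1 : |1 - t| ≤ 1 := by
      have e1 : X * inc (fun k => sub i j (W k)) =
          M + Matrix.of fun a k => (-u) a * β k + (0 : κ → ℝ) a * (0 : κ → ℝ) k := by
        ext a k
        rw [mul_inc, Matrix.add_apply, hMdef, mul_inc]
        simp only [Matrix.of_apply, Pi.neg_apply, Pi.zero_apply, mul_zero, add_zero]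
        rw [col_sub]
        simp only [hu, hβ]
        ring
      have e2 := hmax (fun k => sub i j (W k))
      rw [e1, det_update2 M hMu, abs_mul] at e2
      have e3 : (1 + β ⬝ᵥ (M⁻¹ *ᵥ (-u))) * (1 + (0 : κ → ℝ) ⬝ᵥ (M⁻¹ *ᵥ (0 : κ → ℝ))) -
          (β ⬝ᵥ (M⁻¹ *ᵥ (0 : κ → ℝ))) * ((0 : κ → ℝ) ⬝ᵥ (M⁻¹ *ᵥ (-u))) = 1 - t := by
        simp [Matrix.mulVec_neg, ht, sub_eq_add_neg]
      rw [e3] at e2
      exact (mul_le_iff_le_one_right hpos).1 e2
    -- second family
    have h2 : |t| ≤ 1 := by
      by_cases hz : ∀ k, β k = 0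
      · have : t = 0 := by
          rw [ht, show β = 0 from funext hz, zero_dotProduct]
        rw [this]; simp
      push Not at hz
      obtain ⟨k0, hk0⟩ := hz
      obtain ⟨l, hl, hε⟩ : ∃ l : V, (∀ a, M a k0 = β k0 * (X a i - X a l)) ∧
          β k0 * β k0 = 1 := by
        have hMa : ∀ a, M a k0 = X a (W k0).1 - X a (W k0).2 := fun a => by
          rw [hMdef, mul_inc]; rfl
        have hb : β k0 = (if i = (W k0).1 then 1 else 0) - (if i = (W k0).2 then 1 else 0) := rfl
        by_cases ha : i = (W k0).1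
        · by_cases hb' : i = (W k0).2
          · exfalso
            rw [if_pos ha, if_pos hb', sub_self] at hb
            exact hk0 hb
          · refine ⟨(W k0).2, fun a => ?_, ?_⟩
            · rw [hMa, hb, if_pos ha, if_neg hb', ← ha]; ring
            · rw [hb, if_pos ha, if_neg hb']; ring
        · by_cases hb' : i = (W k0).2
          · refine ⟨(W k0).1, fun a => ?_, ?_⟩
            · rw [hMa, hb, if_neg ha, if_pos hb', ← hb']; ring
            · rw [hb, if_neg ha, if_pos hb']; ring
          · exfalso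
            rw [if_neg ha, if_neg hb', sub_self] at hb
            exact hk0 hb
      set v : κ → ℝ := fun a => X a i - X a l with hv
      have hv1 : M *ᵥ (β k0 • Pi.single k0 1) = v := by
        rw [Matrix.mulVec_smul]
        funext a
        simp only [Pi.smul_apply, smul_eq_mul, Matrix.mulVec_single_one, Matrix.col_apply]
        rw [hl a, ← mul_assoc, hε, one_mul]
      have hv2 : M⁻¹ *ᵥ v = β k0 • Pi.single k0 1 := by
        rw [← hv1, Matrix.mulVec_mulVec, Matrix.nonsing_inv_mul M hMu, Matrix.one_mulVec]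
      have e1 : X * inc (fun k => if k = k0 then (i, j) else sub i l (W k)) =
          M + Matrix.of fun a k => (-v) a * β k + u a * (Pi.single k0 1 : κ → ℝ) k := by
        ext a k
        rw [mul_inc, Matrix.add_apply]
        simp only [Matrix.of_apply, Pi.neg_apply]
        by_cases hk : k = k0
        · subst hk
          rw [if_pos rfl, Pi.single_eq_same, hl a]
          simp only [hu, hv]
          ring
        · rw [if_neg hk, Pi.single_eq_of_ne hk, col_sub, hMdef, mul_inc]
          simp only [Matrix.of_apply, hv, hβ]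
          ring
      have e2 := hmax (fun k => if k = k0 then (i, j) else sub i l (W k))
      rw [e1, det_update2 M hMu, abs_mul] at e2
      have e3 : (1 + β ⬝ᵥ (M⁻¹ *ᵥ (-v))) * (1 + (Pi.single k0 1 : κ → ℝ) ⬝ᵥ (M⁻¹ *ᵥ u)) -
          (β ⬝ᵥ (M⁻¹ *ᵥ u)) * ((Pi.single k0 1 : κ → ℝ) ⬝ᵥ (M⁻¹ *ᵥ (-v))) = t * β k0 := by
        rw [Matrix.mulVec_neg, hv2, dotProduct_neg, dotProduct_smul, dotProduct_single,
          dotProduct_neg, dotProduct_smul, single_dotProduct, single_dotProduct,
          Pi.single_eq_same]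
        simp only [smul_eq_mul, mul_one, one_mul]
        rw [hε, ← ht]
        ring
      rw [e3, abs_mul] at e2
      have e4 : |β k0| = 1 := by
        have := abs_mul_abs_self (β k0)
        rw [hε] at this
        nlinarith [abs_nonneg (β k0)]
      rw [e4, mul_one] at e2
      exact (mul_le_iff_le_one_right hpos).1 e2
    rw [abs_le] at h1 h2
    constructor <;> linarith

end Pool.Agent.FacX
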